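import Mathlib
import Pool.Agent.K1H50.XY.LamE
import Pool.Agent.K1H50.LM.Dn

/-! One residue class: the good sets among the forms without small prime factors, at every scale, uniformly. -/

set_option autoImplicit false

namespace Pool.Agent.K1H50.XY

open Finset Filter Topology
open Pool.Agent.K1H50.LM (BlockP dens5 dens3)

open Classical in
/-- the number of the `n`, `N / 16 ≤ n ≤ 51 N / 100`, at which all the forms of `T` have prime absolute values -/
noncomputable def cntX (T : Finset (ℤ × ℤ)) (N : ℕ) : ℕ :=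
  ((Icc 1 N).filter (fun n : ℕ => (N : ℝ) / 16 ≤ n ∧ (n : ℝ) ≤ 51 / 100 * N ∧
    ∀ f ∈ T, (f.1 * (n : ℤ) + f.2).natAbs.Prime)).card

/-- there are at least `N / (log N) ^ K` such `n` -/
def GoodX (K N : ℕ) (T : Finset (ℤ × ℤ)) : Prop := (N : ℝ) / (Real.log N) ^ K ≤ cntX T N

/-- the form is primitive, its slope is positive and at most `A`, its constant term is at most `13 N / 10` and its
absolute value is at least `N / 24` on `[N / 16, N / 2]` -/
def Big (A N : ℕ) (f : ℤ × ℤ) : Prop :=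
  0 < f.1 ∧ f.1 ≤ A ∧ 10 * |f.2| ≤ 13 * (N : ℤ) ∧ IsCoprime f.1 f.2 ∧
    ∀ t : ℝ, (N : ℝ) / 16 ≤ t → t ≤ N / 2 → (N : ℝ) / 24 ≤ |(f.1 : ℝ) * t + f.2|

open Classical in
/-- the form or its negative -/
noncomputable def sg (N : ℕ) (f : ℤ × ℤ) : ℤ × ℤ :=
  if 0 < (f.1 : ℝ) * ((N : ℝ) / 16) + f.2 then f else (-f.1, -f.2)

theorem sg_cases (N : ℕ) (f : ℤ × ℤ) : sg N f = f ∨ sg N f = (-f.1, -f.2) := by
  unfold sg
  split_ifs
  · left; rfl
  · right; rfl

theorem sg_adx {A N : ℕ} (hN : 1 ≤ N) {f : ℤ × ℤ} (hf : Big A N f) : Adx A N (sg N f) := by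
  obtain ⟨h1, h2, h3, h4, h5⟩ := hf
  have hNr : (1 : ℝ) ≤ N := by exact_mod_cast hN
  have h1r : (0 : ℝ) < f.1 := by exact_mod_cast h1
  have h0 := h5 (N / 16) le_rfl (by linarith)
  unfold sg
  split_ifs with hs
  · refine ⟨h1.ne', by rw [abs_of_pos h1]; exact h2, h3, h4, fun t ht1 ht2 => ?_⟩
    rw [abs_of_pos hs] at h0
    nlinarith
  · rw [not_lt] at hs
    rw [abs_of_nonpos hs] at h0
    refine ⟨by simpa using h1.ne', by simpa [abs_of_pos h1] using h2, by simpa using h3,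
      h4.neg_neg, fun t ht1 ht2 => ?_⟩
    have h6 := h5 t ht1 ht2
    push_cast
    rcases le_or_gt ((f.1 : ℝ) * t + f.2) 0 with h7 | h7
    · rw [abs_of_nonpos h7] at h6
      linarith
    · exfalso
      have h8 := h5 (-(f.2 : ℝ) / f.1) (by
        rw [le_div_iff₀ h1r]
        linarith) (by
        rw [div_le_iff₀ h1r]
        nlinarith)
      have e : (f.1 : ℝ) * (-(f.2 : ℝ) / f.1) + f.2 = 0 := by field_simp; ring
      rw [e, abs_zero] at h8
      linarith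

theorem sg_inj {N : ℕ} {f g : ℤ × ℤ} (hf : 0 < f.1) (hg : 0 < g.1) (h : sg N f = sg N g) : f = g := by
  rcases sg_cases N f with h1 | h1 <;> rcases sg_cases N g with h2 | h2
  · rw [← h1, ← h2, h]
  · rw [h1, h2] at h
    exfalso
    have := congrArg Prod.fst h
    simp only at this
    omega
  · rw [h1, h2] at h
    exfalso
    have := congrArg Prod.fst h
    simp only at this
    omega
  · rw [h1, h2] at h
    simp only [Prod.mk.injEq, neg_inj] at h
    exact Prod.ext h.1 h.2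

theorem sg_natAbs (N : ℕ) (f : ℤ × ℤ) (n : ℤ) :
    ((sg N f).1 * n + (sg N f).2).natAbs = (f.1 * n + f.2).natAbs := by
  rcases sg_cases N f with h1 | h1 <;> rw [h1]
  have e : -f.1 * n + -f.2 = -(f.1 * n + f.2) := by ring
  simp only
  rw [e, Int.natAbs_neg]

theorem sg_dvd (N : ℕ) (f : ℤ × ℤ) (n p : ℤ) :
    p ∣ (sg N f).1 * n + (sg N f).2 ↔ p ∣ f.1 * n + f.2 := by
  rw [← Int.natAbs_dvd_natAbs, sg_natAbs, Int.natAbs_dvd_natAbs]

theorem natAbs_of_toNat {m : ℤ} (h : m.toNat.Prime) : m.natAbs.Prime := by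
  have h0 : 0 < m.toNat := h.pos
  have : m.natAbs = m.toNat := by omega
  rw [this]; exact h

/-- what is needed from the density theorems -/
def DensP (T m k : ℕ) (β : ℝ) : Prop :=
  ∀ L : ℕ, 1 ≤ L → ∃ n0 : ℕ, ∀ (V : Finset (ℤ × ℤ)) (good : Finset (ℤ × ℤ) → Prop), n0 ≤ V.card →
    BlockP T L m k V good → β * (V.card.choose (k + 1)) ≤
      (open Classical in ((V.powersetCard (k + 1)).filter good).card : ℝ)

/-- the conclusion for one class -/
def ClsP (k : ℕ) (β : ℝ) : Prop :=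
  ∃ n0 z0 K : ℕ, ∀ A : ℕ, ∀ᶠ N : ℕ in atTop, ∀ z : ℕ, z0 ≤ z → ∀ (V : Finset (ℤ × ℤ)) (n : ℕ),
    (∀ f ∈ V, Big A N f) → (∀ f ∈ V, ∀ p ∈ (z + 1).primesBelow, ¬ (p : ℤ) ∣ f.1 * (n : ℤ) + f.2) →
    n0 ≤ V.card → β * (V.card.choose (k + 1)) ≤
      (open Classical in ((V.powersetCard (k + 1)).filter (GoodX K N)).card : ℝ)

open Classical in
theorem clsU (T M k : ℕ) (β : ℝ) (hT : 1 ≤ T) (hTM : (18 / 5 : ℝ) * M < T) (hd : DensP T (M + 1) k β) :
    ClsP k β := by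
  obtain ⟨K0, hK0, δ, hδ, H0⟩ := lamX0 T M hT hTM
  obtain ⟨n0, hd⟩ := hd K0 hK0
  refine ⟨n0, T * K0, T * K0 + 2, fun A => ?_⟩
  obtain ⟨s₀, c, hc, HN⟩ := H0 A
  have hlog : ∀ᶠ N : ℕ in atTop, 1 / c ≤ Real.log N :=
    (Real.tendsto_log_atTop.comp tendsto_natCast_atTop_atTop).eventually_ge_atTop _
  filter_upwards [HN, hlog, eventually_ge_atTop 3] with N hN hNl hN3 z hz V n hV hVn hcard
  have hNr : (0 : ℝ) < N := by exact_mod_cast (by omega : 0 < N)
  have hL0 : 0 < Real.log N := Real.log_pos (by exact_mod_cast (by omega : 1 < N))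
  refine hd V (GoodX (T * K0 + 2) N) hcard ?_
  intro B hBinj hBV
  obtain ⟨s, E, -, -, -, hE, hEc⟩ := hN (fun g i => sg N (B (g, i)))
    (by
      intro x y hxy
      apply hBinj
      exact sg_inj (hV _ (hBV x)).1 (hV _ (hBV y)).1 hxy)
    (fun g i => sg_adx (by omega) (hV _ (hBV _)))
    (by
      intro p hp hpk
      refine ⟨n, fun g i => ?_⟩
      rw [sg_dvd]
      exact hVn _ (hBV _) p (Nat.mem_primesBelow.2 ⟨by omega, hp⟩))
  have hex : ∀ g ∈ E.image Prod.fst, ∃ i, (g, i) ∈ E := by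
    intro g hg
    obtain ⟨⟨g', i⟩, h1, h2⟩ := mem_image.1 hg
    exact ⟨i, by rw [← h2]; exact h1⟩
  have : Nonempty (Fin K0) := ⟨⟨0, hK0⟩⟩
  choose! cc hcc using hex
  refine ⟨E.image Prod.fst, cc, hE, fun U hU _ => ?_⟩
  unfold GoodX
  have h1 : (N : ℝ) / (Real.log N) ^ (T * K0 + 2) ≤ c * (N / (Real.log N) ^ (T * K0 + 1)) := by
    rw [div_le_iff₀ hc] at hNl
    rw [div_le_iff₀ (by positivity)]
    have e : c * (N / Real.log N ^ (T * K0 + 1)) * Real.log N ^ (T * K0 + 2) =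
        (Real.log N * c) * N := by
      rw [pow_succ (Real.log N) (T * K0 + 1)]
      field_simp
    rw [e]
    nlinarith
  refine h1.trans (hEc.trans ?_)
  rw [Nat.cast_le]
  unfold cntX Rx
  apply card_le_card
  intro m hm
  rw [mem_filter] at hm ⊢
  refine ⟨hm.1, hm.2.1, hm.2.2.1, fun f hf => ?_⟩
  obtain ⟨i, hi, hif⟩ := hU f hf
  have h2 := (hm.2.2.2.2.2 i (cc i)).2 (hcc i hi)
  have h3 := natAbs_of_toNat h2
  rw [sg_natAbs] at h3
  rw [← hif]
  exact h3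

theorem cls5 (k : ℕ) (hk : 1 ≤ k) (ε : ℝ) (hε : 0 < ε) : ClsP k ((5 / 18 : ℝ) ^ k - ε) := by
  obtain ⟨m, hm, h⟩ := dens5 k hk ε hε
  have e : 5 * m = (5 * m - 1) + 1 := by omega
  refine clsU (18 * m) (5 * m - 1) k _ (by omega) ?_ ?_
  · rw [Nat.cast_sub (by omega)]
    push_cast
    linarith
  · intro L hL
    obtain ⟨n0, h0⟩ := h L hL
    refine ⟨n0, fun V good hV hB => ?_⟩
    rw [← e] at hB
    exact h0 _ V good hV hB

theorem cls3 (ε : ℝ) (hε : 0 < ε) : ClsP 1 ((1 / 3 : ℝ) - ε) := by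
  refine clsU 4 1 1 _ (by norm_num) (by norm_num) ?_
  intro L hL
  obtain ⟨n0, h0⟩ := dens3 ε hε L hL
  exact ⟨n0, fun V good hV hB => h0 _ V good hV hB⟩

end Pool.Agent.K1H50.XY
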