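import Mathlib
import Pool.Agent.H362R2.R1.Mas
import Pool.Agent.K1H50.XY.Cl

/-! The masses of the good sets. -/

set_option autoImplicit false

namespace Pool.Agent.K1H50.XY

open Finset Filter
open Pool.Agent.H387R2
open Pool.Agent.H362R2 Pool.Agent.H362R2.R1

open Classical in
theorem mainU (k : ℕ) (hk : 1 ≤ k) (β : ℝ) (hβ : 0 < β) (hβ1 : β ≤ 1)
    (hcl : ∀ e : ℝ, 0 < e → ClsP k (β - e)) (ε : ℝ) (hε : 0 < ε) : ∃ C : ℝ, 0 < C ∧ ∃ K : ℕ, ∀ A : ℕ,
    ∀ᶠ N : ℕ in atTop, ∀ (H : ℝ) (F : Finset (ℤ × ℤ)), 3 ≤ H →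
    (∀ f ∈ F, Big A N f ∧ |(f.1 : ℝ)| ≤ H ∧ |(f.2 : ℝ)| ≤ H) →
    C * (1 + Real.log (Real.log H)) ≤ F.card →
    (1 - ε) * (F.card.choose (k + 1)) ≤ ∑ T ∈ F.powersetCard (k + 1), BH T ∧
    (β - ε) * ∑ T ∈ F.powersetCard (k + 1), BH T ≤
      ∑ T ∈ (F.powersetCard (k + 1)).filter (GoodX K N), BH T := by
  set e1 : ℝ := min ε (β) with he1
  have he10 : 0 < e1 := lt_min hε (by positivity)
  have he1ε : e1 ≤ ε := min_le_left _ _
  have he14 : e1 ≤ β := min_le_right _ _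
  have h41 : β ≤ 1 := hβ1
  set η : ℝ := e1 / 16 with hη
  have hη0 : 0 < η := by positivity
  obtain ⟨n0, z1, K, hcls⟩ := hcl (e1 / 4) (by positivity)
  obtain ⟨z2, hBH⟩ := BH_bounds (k + 1) (e1 / 8) (by positivity)
  set z0 := max 2 (max z1 z2) with hz0
  obtain ⟨c, hc, hz⟩ := choose_z z0 (le_max_left _ _)
  have hk0 : (0:ℝ) ≤ k := Nat.cast_nonneg k
  have hk1 : (1:ℝ) ≤ k := by exact_mod_cast hk
  set M : ℝ := 2 * k + n0 / η + 2 * (k + 1) * k / e1 with hM
  have hM0 : 0 < M := by positivity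
  refine ⟨M / c, by positivity, K, fun A => ?_⟩
  filter_upwards [hcls A] with N hclsN H F hH hF' hcard
  have hF : ∀ f ∈ F, 0 < f.1 ∧ IsCoprime f.1 f.2 ∧ |(f.1 : ℝ)| ≤ H ∧ |(f.2 : ℝ)| ≤ H :=
    fun f hf => ⟨(hF' f hf).1.1, (hF' f hf).1.2.2.2.1, (hF' f hf).2.1, (hF' f hf).2.2⟩
  obtain ⟨z, hzz0, hzlog, hzc⟩ := hz H hH
  have hz1 : z1 ≤ z := ((le_max_left _ _).trans (le_max_right _ _)).trans hzz0
  have hz2 : z2 ≤ z := ((le_max_right _ _).trans (le_max_right _ _)).trans hzz0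
  have hρ := MB.rho_pos z
  have hWpos : 0 < Uni.WW z := Uni.WW_pos z
  have hW0 : (0:ℝ) < Uni.WW z := by exact_mod_cast hWpos
  set μ : ℝ := F.card * MB.rho z with hμ
  have hlH : 1 < Real.log H := by
    rw [Real.lt_log_iff_exp_lt (by linarith)]
    have := Real.exp_one_lt_d9
    linarith
  have hllH : 0 < Real.log (Real.log H) := Real.log_pos hlH
  have hμM : M ≤ μ := by
    calc M = M / c * c := by field_simp
      _ ≤ M / c * (MB.rho z * (1 + Real.log (Real.log H))) := mul_le_mul_of_nonneg_left hzc (by positivity)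
      _ = (M / c * (1 + Real.log (Real.log H))) * MB.rho z := by ring
      _ ≤ F.card * MB.rho z := mul_le_mul_of_nonneg_right hcard hρ.le
  have hμ0 : 0 < μ := lt_of_lt_of_le hM0 hμM
  have hMa : 2 * (k:ℝ) ≤ μ := by
    refine le_trans ?_ hμM
    rw [hM]
    have : 0 ≤ (n0 : ℝ) / η := by positivity
    have : 0 ≤ 2 * ((k:ℝ) + 1) * k / e1 := by positivity
    linarith
  have hMb : (n0 : ℝ) ≤ η * μ := by
    have : (n0 : ℝ) / η ≤ μ := by
      refine le_trans ?_ hμM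
      rw [hM]
      have : 0 ≤ 2 * ((k:ℝ) + 1) * k / e1 := by positivity
      linarith
    rw [div_le_iff₀ hη0] at this
    linarith
  have hMc : 2 * ((k:ℝ) + 1) * k ≤ e1 * μ := by
    have : 2 * ((k:ℝ) + 1) * k / e1 ≤ μ := by
      refine le_trans ?_ hμM
      rw [hM]
      have : 0 ≤ (n0 : ℝ) / η := by positivity
      linarith
    rw [div_le_iff₀ he10] at this
    linarith
  have hFco : ∀ f ∈ F, IsCoprime f.1 f.2 := fun f hf => (hF f hf).2.1
  have hφW : ((Uni.WW z).totient : ℝ) = MB.rho z * Uni.WW z := by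
    unfold MB.rho
    field_simp
  have s2 : μ * ((range (Uni.WW z)).card : ℝ) ≤ ∑ n ∈ range (Uni.WW z), ((sv z F n).card : ℝ) := by
    have := sum_sv z F hFco
    rw [hφW] at this
    rw [card_range, hμ]
    linarith
  have s3 := smallp (I := range (Uni.WW z)) (fun n => (sv z F n).card) k (μ := μ) (η := η) hMa hμ0.le s2 hη0 (by linarith)
  have s3' := jens (I := range (Uni.WW z)) (fun n => (sv z F n).card) k (μ := μ) (by linarith) s2
  have s4 : ∑ n ∈ range (Uni.WW z), (((sv z F n).card.choose (k + 1) : ℕ) : ℝ) =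
      ∑ T ∈ F.powersetCard (k + 1), (gz z T : ℝ) := by
    have h1 := sum_pset z (k + 1) F (fun _ => True)
    simp only [filter_true] at h1
    rw [← Nat.cast_sum, ← Nat.cast_sum, ← h1]
    congr 1
    apply sum_congr rfl
    intro n _
    rw [card_powersetCard]
  have s5 : (β - e1 / 4) * ∑ n ∈ (range (Uni.WW z)).filter (fun n => η * μ ≤ ((sv z F n).card : ℝ)),
      (((sv z F n).card.choose (k + 1) : ℕ) : ℝ) ≤ ∑ T ∈ (F.powersetCard (k + 1)).filter (GoodX K N), (gz z T : ℝ) := by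
    have g1 : ∑ T ∈ (F.powersetCard (k + 1)).filter (GoodX K N), (gz z T : ℝ) =
        ∑ n ∈ range (Uni.WW z), ((((sv z F n).powersetCard (k + 1)).filter (GoodX K N)).card : ℝ) := by
      have := sum_pset z (k + 1) F (GoodX K N)
      exact_mod_cast this.symm
    rw [g1, mul_sum]
    calc _ ≤ ∑ n ∈ (range (Uni.WW z)).filter (fun n => η * μ ≤ ((sv z F n).card : ℝ)),
        ((((sv z F n).powersetCard (k + 1)).filter (GoodX K N)).card : ℝ) := by
          apply sum_le_sum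
          intro n hn
          rw [mem_filter] at hn
          have hsv : ∀ f ∈ sv z F n, f ∈ F ∧ ∀ p ∈ (z + 1).primesBelow, ¬ (p : ℤ) ∣ f.1 * (n : ℤ) + f.2 := by
            intro f hf
            unfold sv at hf
            rw [mem_filter] at hf
            exact hf
          refine hclsN z hz1 (sv z F n) n (fun f hf => (hF' f (hsv f hf).1).1)
            (fun f hf => (hsv f hf).2) ?_
          exact_mod_cast hMb.trans hn.2
      _ ≤ _ := by
          apply sum_le_sum_of_subset_of_nonneg (filter_subset _ _)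
          intro b _ _
          exact Nat.cast_nonneg _
  have s6 : (β - 3 * (e1 / 8)) * ∑ T ∈ F.powersetCard (k + 1), (gz z T : ℝ) ≤
      ∑ T ∈ (F.powersetCard (k + 1)).filter (GoodX K N), (gz z T : ℝ) := by
    refine le_trans ?_ s5
    have g1 := mul_le_mul_of_nonneg_left s3 (show 0 ≤ β - e1 / 4 by linarith)
    refine le_trans ?_ g1
    rw [s4, ← mul_assoc]
    apply mul_le_mul_of_nonneg_right _ (sum_nonneg fun b _ => Nat.cast_nonneg _)
    rw [hη]
    nlinarith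
  have hcts : ∀ T ∈ F.powersetCard (k + 1), (1 - e1 / 8) * (((1 / MB.rho z) ^ (k + 1) / Uni.WW z) * (gz z T : ℝ)) ≤ BH T ∧
      BH T ≤ (1 + e1 / 8) * (((1 / MB.rho z) ^ (k + 1) / Uni.WW z) * (gz z T : ℝ)) := by
    intro T hT
    rw [mem_powersetCard] at hT
    have g1 := hBH z hz2 H (by linarith) hzlog T hT.2 (fun f hf => (hF f (hT.1 hf)).1)
      (fun f hf => (hF f (hT.1 hf)).2.1) (fun f hf => (hF f (hT.1 hf)).2.2)
    unfold Ez at g1
    rw [Ez_eq, hT.2] at g1
    exact g1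
  constructor
  · have t1 : (1 - e1 / 8) * (((1 / MB.rho z) ^ (k + 1) / Uni.WW z) * ∑ T ∈ F.powersetCard (k + 1), (gz z T : ℝ)) ≤
        ∑ T ∈ F.powersetCard (k + 1), BH T := by
      rw [mul_sum, mul_sum]
      exact sum_le_sum fun T hT => (hcts T hT).1
    refine le_trans ?_ t1
    rw [← s4]
    have t2 : (1 / MB.rho z) ^ (k + 1) / Uni.WW z * (((range (Uni.WW z)).card : ℝ) * ((μ - k) ^ (k + 1) / (k + 1).factorial)) ≤
        (1 / MB.rho z) ^ (k + 1) / Uni.WW z * ∑ n ∈ range (Uni.WW z), (((sv z F n).card.choose (k + 1) : ℕ) : ℝ) :=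
      mul_le_mul_of_nonneg_left s3' (by positivity)
    refine le_trans ?_ (mul_le_mul_of_nonneg_left t2 (by linarith))
    rw [card_range]
    have t3 : (1 / MB.rho z) ^ (k + 1) / Uni.WW z * ((Uni.WW z : ℝ) * ((μ - k) ^ (k + 1) / (k + 1).factorial)) =
        (1 - k / μ) ^ (k + 1) * ((F.card : ℝ) ^ (k + 1) / (k + 1).factorial) := by
      have : μ - k = (1 - k / μ) * (F.card * MB.rho z) := by
        rw [← hμ]; field_simp
      rw [this, mul_pow, mul_pow, one_div_pow]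
      field_simp
    rw [t3]
    have hkμ : (k:ℝ) / μ ≤ 1 := by
      rw [div_le_one hμ0]; linarith
    have t4 : 1 - e1 / 2 ≤ (1 - k / μ) ^ (k + 1) := by
      have := one_add_mul_le_pow (a := -((k:ℝ) / μ)) (by linarith) (k + 1)
      have t5 : ((k:ℝ) + 1) * (k / μ) ≤ e1 / 2 := by
        rw [← mul_div_assoc, div_le_iff₀ hμ0]
        linarith
      calc 1 - e1 / 2 ≤ 1 + ((k + 1 : ℕ) : ℝ) * -((k:ℝ) / μ) := by push_cast; linarith
        _ ≤ (1 + -((k:ℝ) / μ)) ^ (k + 1) := this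
        _ = _ := by ring_nf
    have t5 : ((F.card.choose (k + 1) : ℕ) : ℝ) ≤ (F.card : ℝ) ^ (k + 1) / (k + 1).factorial :=
      Nat.choose_le_pow_div (α := ℝ) (k + 1) F.card
    have t6 : (0:ℝ) ≤ ((F.card.choose (k + 1) : ℕ) : ℝ) := Nat.cast_nonneg _
    have t7 : 0 ≤ 1 - e1 / 2 := by linarith
    have t8 : 0 ≤ 1 - e1 / 8 := by linarith
    calc (1 - ε) * ((F.card.choose (k + 1) : ℕ) : ℝ) ≤ ((1 - e1 / 8) * (1 - e1 / 2)) * ((F.card.choose (k + 1) : ℕ) : ℝ) := by
          apply mul_le_mul_of_nonneg_right _ t6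
          nlinarith
      _ = (1 - e1 / 8) * ((1 - e1 / 2) * ((F.card.choose (k + 1) : ℕ) : ℝ)) := by ring
      _ ≤ (1 - e1 / 8) * ((1 - k / μ) ^ (k + 1) * ((F.card : ℝ) ^ (k + 1) / (k + 1).factorial)) := by
          apply mul_le_mul_of_nonneg_left _ t8
          exact mul_le_mul t4 t5 t6 (t7.trans t4)
  · have s7 := conv3 (F.powersetCard (k + 1)) (fun T => (gz z T : ℝ)) (fun T => BH T)
      ((1 / MB.rho z) ^ (k + 1) / Uni.WW z) (β - 3 * (e1 / 8)) (e1 / 8) (by positivity) (by positivity) (by linarith)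
      (by linarith) (by linarith) (fun T _ => Nat.cast_nonneg _) (GoodX K N)
      (fun T hT => (hcts T hT).1) (fun T hT => (hcts T hT).2) s6
    refine le_trans ?_ s7
    apply mul_le_mul_of_nonneg_right (by linarith)
    apply sum_nonneg
    intro T hT
    refine le_trans ?_ (hcts T hT).1
    have : 0 ≤ 1 - e1 / 8 := by linarith
    positivity

end Pool.Agent.K1H50.XY
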