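import Mathlib
import Pool.Agent.K1H50.XY.Ma
import Pool.Agent.K1H50.LM.Po

/-! Linear polynomials `a x + b y + c` on the line `x + y = n`: translation to forms. -/

set_option autoImplicit false

namespace Pool.Agent.K1H50.XY

open Finset Filter Topology
open Pool.Agent.H362R2.R1

/-- the value `a x + b y + c`, `f = (a, b, c)` -/
def val (f : ℤ × ℤ × ℤ) (x y : ℤ) : ℤ := f.1 * x + f.2.1 * y + f.2.2

/-- the form `(a - b) x + (b n + c)` -/
def fo (n : ℕ) (f : ℤ × ℤ × ℤ) : ℤ × ℤ := (f.1 - f.2.1, f.2.1 * n + f.2.2)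

theorem val_eq (f : ℤ × ℤ × ℤ) (n : ℕ) (x : ℤ) : val f x (n - x) = (fo n f).1 * x + (fo n f).2 := by
  unfold val fo; ring

/-- the conditions on `f` -/
def Alw (A n : ℕ) (f : ℤ × ℤ × ℤ) : Prop :=
  0 ≤ f.1 ∧ f.1 ≤ A ∧ 0 ≤ f.2.1 ∧ f.2.1 ≤ 2 ∧ f.1 ≠ f.2.1 ∧ 100 * |f.2.2| ≤ n ∧
    IsCoprime (f.1 - f.2.1) (f.2.1 * n + f.2.2)

theorem fo_adx {A n : ℕ} (hn : 100 ≤ n) {f : ℤ × ℤ × ℤ} (hf : Alw A n f) :
    Adx (A + 2) (9 * n / 5) (fo n f) := by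
  obtain ⟨a, b, c⟩ := f
  obtain ⟨h1, h2, h3, h4, h5, h6, h7⟩ := hf
  simp only at h1 h2 h3 h4 h5 h6 h7
  obtain ⟨N, hN⟩ : ∃ N, N = 9 * n / 5 := ⟨_, rfl⟩
  rw [← hN]
  have hN1 : 5 * N ≤ 9 * n := by omega
  have hN2 : 9 * n ≤ 5 * N + 4 := by omega
  have hc := abs_le.1 (show |c| ≤ (n : ℤ) / 100 by omega)
  refine ⟨?_, ?_, ?_, h7, fun t ht1 ht2 => ?_⟩
  · show a - b ≠ 0
    omega
  · show |a - b| ≤ ((A + 2 : ℕ) : ℤ)
    rw [abs_le]
    push_cast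
    constructor <;> linarith
  · show 10 * |b * n + c| ≤ 13 * (N : ℤ)
    have hb : b = 0 ∨ b = 1 ∨ b = 2 := by omega
    have hv : |b * n + c| ≤ 2 * n + (n : ℤ) / 100 := by
      rw [abs_le]
      rcases hb with rfl | rfl | rfl <;> constructor <;> omega
    omega
  · show (N : ℝ) / 24 ≤ ((a - b : ℤ) : ℝ) * t + ((b * n + c : ℤ) : ℝ)
    push_cast
    have hN1r : 5 * (N : ℝ) ≤ 9 * n := by exact_mod_cast hN1
    have hN2r : 9 * (n : ℝ) ≤ 5 * N + 4 := by exact_mod_cast hN2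
    have hcr : -((n : ℝ)) ≤ 100 * c := by
      have : -(n : ℤ) ≤ 100 * c := by omega
      exact_mod_cast this
    have hnr : (100 : ℝ) ≤ n := by exact_mod_cast hn
    have ha0 : (0 : ℝ) ≤ a := by exact_mod_cast h1
    have hb0 : (0 : ℝ) ≤ b := by exact_mod_cast h3
    have ht0 : 0 ≤ t := by
      have : (0 : ℝ) ≤ N := Nat.cast_nonneg N
      linarith
    have hnt : 0 ≤ (n : ℝ) - t := by linarith
    have e : ((a : ℝ) - b) * t + (b * n + c) = a * t + b * ((n : ℝ) - t) + c := by ring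
    rw [e]
    have hab : 1 ≤ a ∨ 1 ≤ b := by omega
    rcases hab with h | h
    · have h8 : (1 : ℝ) ≤ a := by exact_mod_cast h
      have h9 : t ≤ a * t := by nlinarith
      have h10 : 0 ≤ (b : ℝ) * ((n : ℝ) - t) := mul_nonneg hb0 hnt
      linarith
    · have h8 : (1 : ℝ) ≤ b := by exact_mod_cast h
      have h9 : (n : ℝ) - t ≤ b * ((n : ℝ) - t) := by nlinarith
      have h10 : 0 ≤ (a : ℝ) * t := mul_nonneg ha0 ht0
      linarith

theorem fo_inj {A n : ℕ} (hn : 100 ≤ n) {f g : ℤ × ℤ × ℤ} (hf : Alw A n f) (hg : Alw A n g)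
    (h : fo n f = fo n g) : f = g := by
  obtain ⟨a, b, c⟩ := f
  obtain ⟨a', b', c'⟩ := g
  obtain ⟨-, -, h3, h4, -, h6, -⟩ := hf
  obtain ⟨-, -, k3, k4, -, k6, -⟩ := hg
  simp only at h3 h4 h6 k3 k4 k6
  unfold fo at h
  simp only [Prod.mk.injEq] at h
  obtain ⟨e1, e2⟩ := h
  have hc := abs_le.1 (show |c| ≤ (n : ℤ) / 100 by omega)
  have kc := abs_le.1 (show |c'| ≤ (n : ℤ) / 100 by omega)
  have hbb : b = b' := by
    have hb : b = 0 ∨ b = 1 ∨ b = 2 := by omega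
    have kb : b' = 0 ∨ b' = 1 ∨ b' = 2 := by omega
    rcases hb with rfl | rfl | rfl <;> rcases kb with rfl | rfl | rfl <;> omega
  subst hbb
  have hcc : c = c' := by linarith
  have haa : a = a' := by linarith
  rw [hcc, haa]

open Classical in
/-- the form with positive slope -/
noncomputable def pr (n : ℕ) (f : ℤ × ℤ × ℤ) : ℤ × ℤ :=
  if 0 < (fo n f).1 then fo n f else (-(fo n f).1, -(fo n f).2)

theorem pr_cases (n : ℕ) (f : ℤ × ℤ × ℤ) : (0 < (fo n f).1 ∧ pr n f = fo n f) ∨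
    ((fo n f).1 ≤ 0 ∧ pr n f = (-(fo n f).1, -(fo n f).2)) := by
  unfold pr
  split_ifs with h
  · exact Or.inl ⟨h, rfl⟩
  · exact Or.inr ⟨not_lt.1 h, rfl⟩

theorem pr_inj {A n : ℕ} (hn : 100 ≤ n) {f g : ℤ × ℤ × ℤ} (hf : Alw A n f) (hg : Alw A n g)
    (h : pr n f = pr n g) : f = g := by
  apply fo_inj hn hf hg
  by_contra hne
  apply (fo_adx hn hf).np (by omega) (fo_adx hn hg) hne
  rcases pr_cases n f with ⟨-, h1⟩ | ⟨-, h1⟩ <;> rcases pr_cases n g with ⟨-, h2⟩ | ⟨-, h2⟩ <;>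
    rw [h1, h2] at h
  · rw [h]
  · rw [h]; ring
  · rw [← h]; ring
  · simp only [Prod.mk.injEq, neg_inj] at h
    rw [h.1, h.2]

theorem pr_val (n : ℕ) (f : ℤ × ℤ × ℤ) (x : ℤ) :
    (val f x (n - x)).natAbs = ((pr n f).1 * x + (pr n f).2).natAbs := by
  rw [val_eq]
  rcases pr_cases n f with ⟨-, h1⟩ | ⟨-, h1⟩ <;> rw [h1]
  have e : -(fo n f).1 * x + -(fo n f).2 = -((fo n f).1 * x + (fo n f).2) := by ring
  simp only
  rw [e, Int.natAbs_neg]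

theorem pr_dvd (n : ℕ) (f : ℤ × ℤ × ℤ) (x p : ℤ) :
    p ∣ val f x (n - x) ↔ p ∣ (pr n f).1 * x + (pr n f).2 := by
  rw [← Int.natAbs_dvd_natAbs, pr_val, Int.natAbs_dvd_natAbs]

theorem pr_big {A n : ℕ} (hn : 100 ≤ n) {f : ℤ × ℤ × ℤ} (hf : Alw A n f) :
    Big (A + 2) (9 * n / 5) (pr n f) := by
  obtain ⟨h1, h2, h3, h4, h5⟩ := fo_adx hn hf
  have h2' := abs_le.1 h2
  rcases pr_cases n f with ⟨h6, h7⟩ | ⟨h6, h7⟩ <;> rw [h7]
  · exact ⟨h6, h2'.2, h3, h4, fun t ht1 ht2 => (h5 t ht1 ht2).trans (le_abs_self _)⟩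
  · refine ⟨by simp only; omega, by simp only; omega, by simpa using h3, h4.neg_neg, fun t ht1 ht2 => ?_⟩
    have h8 := h5 t ht1 ht2
    refine h8.trans ?_
    push_cast
    have e : -((fo n f).1 : ℝ) * t + -((fo n f).2 : ℝ) = -(((fo n f).1 : ℝ) * t + (fo n f).2) := by ring
    rw [e, abs_neg]
    exact le_abs_self _

/-- the size of the coefficients -/
theorem pr_size {A n : ℕ} (hn : 100 ≤ n) (hA : A + 2 ≤ n) {f : ℤ × ℤ × ℤ} (hf : Alw A n f) :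
    |((pr n f).1 : ℝ)| ≤ 3 * n ∧ |((pr n f).2 : ℝ)| ≤ 3 * n := by
  obtain ⟨h1, h2, h3, -, -⟩ := fo_adx hn hf
  have hN1 : 5 * (9 * n / 5) ≤ 9 * n := by omega
  have e1 : |(fo n f).1| ≤ 3 * (n : ℤ) := h2.trans (by push_cast; omega)
  have e2 : |(fo n f).2| ≤ 3 * (n : ℤ) := by
    have : 5 * ((9 * n / 5 : ℕ) : ℤ) ≤ 9 * n := by exact_mod_cast hN1
    linarith
  have k1 : |((fo n f).1 : ℝ)| ≤ 3 * n := by
    have : ((|(fo n f).1| : ℤ) : ℝ) ≤ ((3 * (n : ℤ) : ℤ) : ℝ) := by exact_mod_cast e1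
    push_cast at this
    exact this
  have k2 : |((fo n f).2 : ℝ)| ≤ 3 * n := by
    have : ((|(fo n f).2| : ℤ) : ℝ) ≤ ((3 * (n : ℤ) : ℤ) : ℝ) := by exact_mod_cast e2
    push_cast at this
    exact this
  rcases pr_cases n f with ⟨_, h7⟩ | ⟨_, h7⟩ <;> rw [h7]
  · exact ⟨k1, k2⟩
  · push_cast
    rw [abs_neg, abs_neg]
    exact ⟨k1, k2⟩

open Classical in
/-- the residues -/
theorem om_pr (F : Finset (ℤ × ℤ × ℤ)) (n : ℕ) {p : ℕ} (hp : p.Prime) :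
    ((Icc 1 p).filter (fun x : ℕ => (p : ℤ) ∣ ∏ f ∈ F, val f x ((n : ℤ) - x))).card =
      om (F.image (pr n)) p := by
  have hpp := Nat.prime_iff_prime_int.1 hp
  have h1 : ∀ x : ℕ, (p : ℤ) ∣ ∏ f ∈ F, val f x ((n : ℤ) - x) ↔
      ∃ g ∈ F.image (pr n), (p : ℤ) ∣ g.1 * (x : ℤ) + g.2 := by
    intro x
    rw [Prime.dvd_finsetProd_iff hpp]
    constructor
    · rintro ⟨f, hf, hd⟩
      exact ⟨pr n f, mem_image_of_mem _ hf, (pr_dvd _ _ _ _).1 hd⟩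
    · rintro ⟨g, hg, hd⟩
      obtain ⟨f, hf, rfl⟩ := Finset.mem_image.1 hg
      exact ⟨f, hf, (pr_dvd _ _ _ _).2 hd⟩
  rw [Pool.Agent.K1H50.LM.card_res p (fun x : ℕ => (p : ℤ) ∣ ∏ f ∈ F, val f x ((n : ℤ) - x))]
  · unfold om
    congr 1
    apply filter_congr
    intro x _
    exact h1 x
  · intro x
    rw [h1, h1]
    apply exists_congr
    intro g
    apply and_congr_right
    intro _
    have e : g.1 * ((x + p : ℕ) : ℤ) + g.2 = (g.1 * (x : ℤ) + g.2) + p * g.1 := by push_cast; ring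
    rw [e]
    exact dvd_add_left (dvd_mul_right _ _)

theorem BH_nonneg (T : Finset (ℤ × ℤ)) (h0 : ∀ f ∈ T, 0 < f.1) (hT : ∀ f ∈ T, IsCoprime f.1 f.2) :
    0 ≤ BH T := by
  refine ge_of_tendsto (Pool.Agent.K1H50.LM.BH_tendsto T h0 hT) (Eventually.of_forall fun z => ?_)
  exact prod_nonneg fun p hp => lc_nonneg T (mem_filter.1 hp).2

/-- `N / (log N) ^ K`, `N = 9 n / 5`, is at least `n / (log n) ^ (K + 1)` -/
theorem size_ev (K : ℕ) : ∀ᶠ n : ℕ in atTop, (n : ℝ) / Real.log n ^ (K + 1) ≤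
    ((9 * n / 5 : ℕ) : ℝ) / Real.log ((9 * n / 5 : ℕ) : ℝ) ^ K := by
  have hlog : ∀ᶠ n : ℕ in atTop, (2 : ℝ) ^ K ≤ Real.log n :=
    (Real.tendsto_log_atTop.comp tendsto_natCast_atTop_atTop).eventually_ge_atTop _
  filter_upwards [hlog, eventually_ge_atTop 100] with n hn h100
  obtain ⟨N, hN⟩ : ∃ N, N = 9 * n / 5 := ⟨_, rfl⟩
  rw [← hN]
  have hN1 : n ≤ N := by omega
  have hN2 : N ≤ 2 * n := by omega
  have hn0 : (0 : ℝ) < n := by exact_mod_cast (by omega : 0 < n)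
  have hNr : (n : ℝ) ≤ N := by exact_mod_cast hN1
  have hNr2 : (N : ℝ) ≤ 2 * n := by exact_mod_cast hN2
  have hl0 : 0 < Real.log n := Real.log_pos (by exact_mod_cast (by omega : 1 < n))
  have hlN : Real.log n ≤ Real.log N := Real.log_le_log hn0 hNr
  have hlN2 : Real.log N ≤ 2 * Real.log n := by
    have h1 : Real.log N ≤ Real.log ((n : ℝ) ^ 2) := by
      apply Real.log_le_log (by linarith)
      have : (100 : ℝ) ≤ n := by exact_mod_cast h100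
      nlinarith
    rw [Real.log_pow] at h1
    push_cast at h1
    linarith
  have h2 : Real.log N ^ K ≤ Real.log n ^ (K + 1) := by
    calc Real.log N ^ K ≤ (2 * Real.log n) ^ K := pow_le_pow_left₀ (by linarith) hlN2 K
      _ = 2 ^ K * Real.log n ^ K := mul_pow _ _ _
      _ ≤ Real.log n * Real.log n ^ K := mul_le_mul_of_nonneg_right hn (by positivity)
      _ = _ := by ring
  have hlNp : 0 < Real.log N := by linarith
  apply div_le_div₀ (by linarith) hNr (by positivity) h2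

end Pool.Agent.K1H50.XY
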