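import Mathlib
import Pool.Agent.K1H50.XY.Li

/-! A fixed admissible family of linear polynomials: `k + 1` of more than `18 k / 5` polynomials, up to bounded
shifts, for every large `n`. -/

set_option autoImplicit false

namespace Pool.Agent.K1H50.XY

open Finset Filter Topology

theorem partA (T k : ℕ) (hT : 1 ≤ T) (hTk : 18 * k < 5 * T) (f : Fin T → ℤ × ℤ × ℤ)
    (hf : ∀ i, 0 ≤ (f i).1 ∧ 0 ≤ (f i).2.1 ∧ (f i).2.1 ≤ 2 ∧ (f i).1 ≠ (f i).2.1)
    (hadm : ∃ N₀ : ℕ, ∀ n : ℕ, N₀ ≤ n → (∀ i, IsCoprime ((f i).1 - (f i).2.1) ((f i).2.1 * n + (f i).2.2)) ∧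
      ∀ p : ℕ, p.Prime → ∃ x : ℤ, ∀ i, ¬ (p : ℤ) ∣ val (f i) x (n - x)) :
    ∃ B K n₀ : ℕ, ∀ n : ℕ, n₀ ≤ n → ∃ (I : Finset (Fin T)) (h : Fin T → ℕ), k + 1 ≤ I.card ∧ (∀ i, h i ≤ B) ∧
      (n : ℝ) / Real.log n ^ K ≤ (((Ioo 0 n).filter (fun x : ℕ => ∀ i ∈ I, x + h i < n ∧
        (val (f i) (x + h i) (n - (x + h i))).natAbs.Prime)).card : ℝ) := by
  classical
  have hTM : (18 / 5 : ℝ) * (k : ℝ) < T := by
    have : (18 : ℝ) * k < 5 * T := by exact_mod_cast hTk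
    linarith
  obtain ⟨K0, hK0, δ, hδ, H0⟩ := lamX0 T k hT hTM
  obtain ⟨N₀, hadm⟩ := hadm
  -- constants
  obtain ⟨P, hP⟩ : ∃ P, P = (T * K0).factorial := ⟨_, rfl⟩
  have hP0 : 1 ≤ P := by rw [hP]; exact Nat.factorial_pos _
  obtain ⟨R, hR⟩ : ∃ R : ℕ, R = 1 + 2 * ∑ i, (f i).2.2.natAbs := ⟨_, rfl⟩
  obtain ⟨A, hA⟩ : ∃ A : ℕ, A = ∑ i, (f i).1.natAbs := ⟨_, rfl⟩
  have hAi : ∀ i, (f i).1 ≤ A := by
    intro i
    have h1 : (f i).1.natAbs ≤ A := by
      rw [hA]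
      exact single_le_sum (f := fun i => (f i).1.natAbs) (fun _ _ => Nat.zero_le _) (mem_univ i)
    have := Int.le_natAbs (a := (f i).1)
    omega
  have hRi : ∀ i, 2 * (f i).2.2.natAbs < R := by
    intro i
    have h1 : (f i).2.2.natAbs ≤ ∑ i, (f i).2.2.natAbs :=
      single_le_sum (f := fun i => (f i).2.2.natAbs) (fun _ _ => Nat.zero_le _) (mem_univ i)
    omega
  obtain ⟨sh, hsh⟩ : ∃ sh : Fin T → Fin K0 → ℕ, sh = fun (g : Fin T) (i : Fin K0) =>
    P * R * ((g : ℕ) * K0 + (i : ℕ)) := ⟨_, rfl⟩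
  obtain ⟨B, hB⟩ : ∃ B, B = P * R * (T * K0) := ⟨_, rfl⟩
  have hshB : ∀ g i, sh g i ≤ B := by
    intro g i
    rw [hsh, hB]
    apply Nat.mul_le_mul_left
    have h1 := g.2
    have h2 := i.2
    calc (g : ℕ) * K0 + i ≤ g * K0 + K0 := by omega
      _ = (g + 1) * K0 := by ring
      _ ≤ T * K0 := Nat.mul_le_mul_right _ h1
  obtain ⟨ff, hff⟩ : ∃ ff : Fin T → Fin K0 → ℤ × ℤ × ℤ, ff = fun g i =>
    ((f g).1, (f g).2.1, (f g).2.2 + ((f g).1 - (f g).2.1) * sh g i) := ⟨_, rfl⟩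
  have hffv : ∀ g i (x y : ℤ), val (ff g i) x y = val (f g) (x + sh g i) (y - sh g i) := by
    intro g i x y
    rw [hff]
    unfold val
    ring
  have hinj : Function.Injective (fun x : Fin T × Fin K0 => ff x.1 x.2) := by
    rintro ⟨g, i⟩ ⟨g', i'⟩ h
    rw [hff] at h
    simp only [Prod.mk.injEq] at h
    obtain ⟨h1, h2, h3⟩ := h
    have key : (g : ℕ) * K0 + i = g' * K0 + i' := by
      by_contra hne
      have e1 : ((f g).1 - (f g).2.1) * ((sh g i : ℤ) - sh g' i') = (f g').2.2 - (f g).2.2 := by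
        rw [← h1, ← h2] at h3
        linarith
      have e2 : ((sh g i : ℤ) - sh g' i') = P * R * (((g * K0 + i : ℕ) : ℤ) - ((g' * K0 + i' : ℕ) : ℤ)) := by
        rw [hsh]
        push_cast
        ring
      have e3 : 1 ≤ |(((g * K0 + i : ℕ) : ℤ) - ((g' * K0 + i' : ℕ) : ℤ))| := by
        apply Int.one_le_abs
        intro h0
        apply hne
        have : ((g * K0 + i : ℕ) : ℤ) = ((g' * K0 + i' : ℕ) : ℤ) := by linarith
        exact_mod_cast this
      have e4 : (R : ℤ) ≤ |((sh g i : ℤ) - sh g' i')| := by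
        rw [e2, abs_mul, abs_of_nonneg (by positivity : (0 : ℤ) ≤ (P : ℤ) * R)]
        have p1 : (1 : ℤ) ≤ P := by exact_mod_cast hP0
        have r0 : (0 : ℤ) ≤ R := Nat.cast_nonneg R
        nlinarith [mul_nonneg (by linarith : (0 : ℤ) ≤ (P : ℤ) - 1) r0,
          mul_nonneg (mul_nonneg (by linarith : (0 : ℤ) ≤ (P : ℤ)) r0)
            (by linarith : (0 : ℤ) ≤ |(((g * K0 + i : ℕ) : ℤ) - ((g' * K0 + i' : ℕ) : ℤ))| - 1)]
      have e5 : 1 ≤ |(f g).1 - (f g).2.1| := by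
        apply Int.one_le_abs
        have := (hf g).2.2.2
        omega
      have e6 : (R : ℤ) ≤ |(f g').2.2 - (f g).2.2| := by
        rw [← e1, abs_mul]
        nlinarith [abs_nonneg ((sh g i : ℤ) - sh g' i')]
      have e7 := hRi g
      have e8 := hRi g'
      have e9 := (abs_sub _ _).trans' e6
      rw [Int.abs_eq_natAbs, Int.abs_eq_natAbs] at e9
      have e10 : R ≤ (f g').2.2.natAbs + (f g).2.2.natAbs := by exact_mod_cast e9
      omega
    have hg : (g : ℕ) = g' := by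
      have h1 := i.2
      have h2 := i'.2
      have e1 : ((g : ℕ) * K0 + i) / K0 = g := by
        rw [Nat.add_comm, Nat.add_mul_div_right _ _ (by omega), Nat.div_eq_of_lt h1, Nat.zero_add]
      have e2 : ((g' : ℕ) * K0 + i') / K0 = g' := by
        rw [Nat.add_comm, Nat.add_mul_div_right _ _ (by omega), Nat.div_eq_of_lt h2, Nat.zero_add]
      rw [← e1, ← e2, key]
    have hi : (i : ℕ) = i' := by
      rw [hg] at key
      omega
    exact Prod.ext (Fin.ext hg) (Fin.ext hi)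
  obtain ⟨s₀, c, hc, HN⟩ := H0 (A + 2)
  obtain ⟨n1, HN⟩ := eventually_atTop.1 HN
  have hlog : ∀ᶠ n : ℕ in atTop, 1 / c ≤ Real.log n :=
    (Real.tendsto_log_atTop.comp tendsto_natCast_atTop_atTop).eventually_ge_atTop _
  obtain ⟨n2, hlog⟩ := eventually_atTop.1 hlog
  obtain ⟨n3, hsize⟩ := eventually_atTop.1 (size_ev (T * K0 + 2))
  refine ⟨B, T * K0 + 3, n1 + n2 + n3 + N₀ + 100 * (R + (A + 2) * B) + 100, fun n hn => ?_⟩
  have hn100 : 100 ≤ n := by omega
  have hnN : n ≤ 9 * n / 5 := by omega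
  have hBn : 100 * (R + (A + 2) * B) ≤ n := by omega
  obtain ⟨had1, had2⟩ := hadm n (by omega)
  have halw : ∀ g i, Alw A n (ff g i) := by
    intro g i
    rw [hff]
    refine ⟨(hf g).1, hAi g, (hf g).2.1, (hf g).2.2.1, (hf g).2.2.2, ?_, ?_⟩
    · simp only
      have e1 : |(f g).2.2| ≤ R := by
        have := hRi g
        rw [Int.abs_eq_natAbs]
        exact_mod_cast (by omega : (f g).2.2.natAbs ≤ R)
      have e2 : |((f g).1 - (f g).2.1) * (sh g i : ℤ)| ≤ ((A : ℤ) + 2) * B := by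
        rw [abs_mul]
        apply mul_le_mul _ _ (abs_nonneg _) (by positivity)
        · rw [abs_le]
          have a1 := hAi g
          have a2 := (hf g).1
          have a3 := (hf g).2.1
          have a4 := (hf g).2.2.1
          constructor <;> omega
        · rw [abs_of_nonneg (Nat.cast_nonneg _)]
          exact_mod_cast hshB g i
      have e3 : |(f g).2.2 + ((f g).1 - (f g).2.1) * (sh g i : ℤ)| ≤ R + ((A : ℤ) + 2) * B :=
        (abs_add_le _ _).trans (add_le_add e1 e2)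
      have e4 : 100 * ((R : ℤ) + ((A : ℤ) + 2) * B) ≤ n := by exact_mod_cast hBn
      linarith
    · have h1 := had1 g
      have h2 : (f g).2.1 * (n : ℤ) + ((f g).2.2 + ((f g).1 - (f g).2.1) * (sh g i : ℤ)) =
          ((f g).2.1 * n + (f g).2.2) + (sh g i : ℤ) * ((f g).1 - (f g).2.1) := by ring
      simp only
      rw [h2]
      exact IsCoprime.add_mul_right_right h1 _
  obtain ⟨s, E, -, -, -, hE, hEc⟩ := HN (9 * n / 5) (by omega) (fun g i => fo n (ff g i))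
    (by
      intro x y hxy
      apply hinj
      exact fo_inj hn100 (halw _ _) (halw _ _) hxy)
    (fun g i => fo_adx hn100 (halw g i))
    (by
      intro p hp hpk
      obtain ⟨x, hx⟩ := had2 p hp
      refine ⟨x, fun g i hd => hx g ?_⟩
      rw [← val_eq, hffv] at hd
      have hps : (p : ℤ) ∣ (sh g i : ℤ) := by
        have h1 : p ∣ P := by rw [hP]; exact (Nat.Prime.dvd_factorial hp).2 hpk
        rw [hsh]
        exact_mod_cast (h1.mul_right _).mul_right _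
      have e : val (f g) x (n - x) = val (f g) (x + sh g i) (n - x - sh g i) -
          ((f g).1 - (f g).2.1) * (sh g i : ℤ) := by
        unfold val; ring
      rw [e]
      exact dvd_sub hd (hps.mul_left _))
  have hex : ∀ g ∈ E.image Prod.fst, ∃ i, (g, i) ∈ E := by
    intro g hg
    obtain ⟨⟨g', i⟩, h1, h2⟩ := mem_image.1 hg
    exact ⟨i, by rw [← h2]; exact h1⟩
  have : Nonempty (Fin K0) := ⟨⟨0, hK0⟩⟩
  choose! cc hcc using hex
  refine ⟨E.image Prod.fst, fun g => sh g (cc g), hE, fun i => hshB _ _, ?_⟩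
  have h1 := hsize n (by omega)
  refine h1.trans ?_
  have hN1 : (1 : ℝ) < ((9 * n / 5 : ℕ) : ℝ) := by exact_mod_cast (by omega : 1 < 9 * n / 5)
  have hL0 := Real.log_pos hN1
  have hNl := hlog (9 * n / 5) (by omega)
  have h2 : ((9 * n / 5 : ℕ) : ℝ) / (Real.log ((9 * n / 5 : ℕ) : ℝ)) ^ (T * K0 + 2) ≤
      c * (((9 * n / 5 : ℕ) : ℝ) / (Real.log ((9 * n / 5 : ℕ) : ℝ)) ^ (T * K0 + 1)) := by
    rw [div_le_iff₀ hc] at hNl
    rw [div_le_iff₀ (by positivity)]
    have e : c * (((9 * n / 5 : ℕ) : ℝ) / Real.log ((9 * n / 5 : ℕ) : ℝ) ^ (T * K0 + 1)) *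
        Real.log ((9 * n / 5 : ℕ) : ℝ) ^ (T * K0 + 2) =
        (Real.log ((9 * n / 5 : ℕ) : ℝ) * c) * ((9 * n / 5 : ℕ) : ℝ) := by
      rw [pow_succ (Real.log ((9 * n / 5 : ℕ) : ℝ)) (T * K0 + 1)]
      field_simp
    rw [e]
    nlinarith
  refine h2.trans (hEc.trans ?_)
  rw [Nat.cast_le]
  unfold Rx
  apply card_le_card
  intro m hm
  rw [mem_filter, mem_Icc] at hm
  obtain ⟨⟨hm1, -⟩, -, hm2, -, -, hm3⟩ := hm
  have hmn : 1000 * m ≤ 918 * n := by
    have e1 : (5 : ℝ) * ((9 * n / 5 : ℕ) : ℝ) ≤ 9 * n := by exact_mod_cast (by omega : 5 * (9 * n / 5) ≤ 9 * n)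
    have : (1000 : ℝ) * m ≤ 918 * n := by linarith
    exact_mod_cast this
  have hBn' : 100 * B ≤ n := by
    have : B ≤ (A + 2) * B := Nat.le_mul_of_pos_left _ (by omega)
    omega
  rw [mem_filter, mem_Ioo]
  refine ⟨⟨by omega, by omega⟩, fun g hg => ⟨?_, ?_⟩⟩
  · have h7 := hshB g (cc g)
    show m + sh g (cc g) < n
    omega
  · have h5 := (hm3 g (cc g)).2 (hcc g hg)
    have h6 := Pool.Agent.K1H50.XY.natAbs_of_toNat h5
    rw [← val_eq, hffv] at h6
    have e : (n : ℤ) - (m + sh g (cc g)) = n - m - sh g (cc g) := by ring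
    simp only
    rw [e]
    exact h6

end Pool.Agent.K1H50.XY
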